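import Mathlib

/-!
# List packing of bipartite planar graphs: the maximum is at least 4

An explicit bipartite planar graph with 48 vertices and 92 edges, and a list assignment with lists
of size 3 which has no packing.  So the greatest list packing number of a bipartite planar graph is
4 or 5.  Planarity is proved by a straight-line drawing with integer coordinates, the absence of a
packing by a search along a tree of depth 8.
-/

namespace Pool.Agent.Results.MP_e21097_co.AtLeastFour

/-- `p` is a straight-line crossing-free drawing of `G`: distinct vertices are distinct points, no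
vertex lies on the closed segment of an edge except its two ends, and the segments of two different
edges meet only in a common end vertex. -/
def Drawing {V : Type} (G : SimpleGraph V) (p : V → ℝ × ℝ) : Prop :=
  Function.Injective p ∧
    (∀ u v w : V, G.Adj u v → w ≠ u → w ≠ v → p w ∉ segment ℝ (p u) (p v)) ∧
    (∀ u v x y : V, G.Adj u v → G.Adj x y → s(u, v) ≠ s(x, y) →
      ∀ z ∈ segment ℝ (p u) (p v), z ∈ segment ℝ (p x) (p y) →
        ∃ w : V, (w = u ∨ w = v) ∧ (w = x ∨ w = y) ∧ z = p w)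

/-- `G` is planar (it has a straight-line crossing-free drawing). -/
def Planar {V : Type} (G : SimpleGraph V) : Prop := ∃ p : V → ℝ × ℝ, Drawing G p

/-- `c` is a proper `L`-colouring of `G`. -/
def IsColouring {V : Type} (G : SimpleGraph V) (L : V → Finset ℕ) (c : V → ℕ) : Prop :=
  (∀ v, c v ∈ L v) ∧ ∀ u v, G.Adj u v → c u ≠ c v

/-- The `k`-tuple `c` is an `L`-packing. -/
def IsPacking {V : Type} (G : SimpleGraph V) (L : V → Finset ℕ) {k : ℕ} (c : Fin k → V → ℕ) :
    Prop :=
  (∀ i, IsColouring G L (c i)) ∧ ∀ i j, i ≠ j → ∀ v, c i v ≠ c j v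

/-- Every `k`-list-assignment of `G` admits an `L`-packing. -/
def Packable {V : Type} (G : SimpleGraph V) (k : ℕ) : Prop :=
  ∀ L : V → Finset ℕ, (∀ v, (L v).card = k) → ∃ c : Fin k → V → ℕ, IsPacking G L c

/-- The list packing number: the least `k ≥ 1` such that every `k`-list-assignment admits an
`L`-packing. -/
noncomputable def listPackingNumber {V : Type} (G : SimpleGraph V) : ℕ :=
  sInf {k | 1 ≤ k ∧ Packable G k}

/-! ## General facts -/

/-- If all the `k`-list-assignments have packings, so have all the `(k + 1)`-list-assignments. -/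
lemma packable_succ {V : Type} {G : SimpleGraph V} {k : ℕ} (hk : 1 ≤ k) (h : Packable G k) :
    Packable G (k + 1) := by
  classical
  intro L hL
  have hne : ∀ v, (L v).Nonempty := fun v => Finset.card_pos.1 (by rw [hL]; omega)
  choose a ha using hne
  obtain ⟨c, hc, _⟩ := h (fun v => (L v).erase (a v))
    (fun v => by rw [Finset.card_erase_of_mem (ha v), hL]; rfl)
  set c0 : V → ℕ := c ⟨0, by omega⟩ with hc0
  have h0 := hc ⟨0, by omega⟩
  have h0m : ∀ v, c0 v ∈ L v := fun v => Finset.mem_of_mem_erase (h0.1 v)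
  obtain ⟨d, hd, hd2⟩ := h (fun v => (L v).erase (c0 v))
    (fun v => by rw [Finset.card_erase_of_mem (h0m v), hL]; rfl)
  refine ⟨Fin.cons c0 d, fun i => ?_, fun i j hij v => ?_⟩
  · refine Fin.cases ?_ (fun i => ?_) i
    · exact ⟨h0m, h0.2⟩
    · exact ⟨fun v => Finset.mem_of_mem_erase ((hd i).1 v), (hd i).2⟩
  · revert hij
    refine Fin.cases ?_ (fun i => ?_) i <;> refine Fin.cases ?_ (fun j => ?_) j
    · intro h; exact absurd rfl h
    · intro _ h
      have h1 : c0 v = d j v := h
      exact Finset.ne_of_mem_erase ((hd j).1 v) h1.symm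
    · intro _ h
      have h1 : d i v = c0 v := h
      exact Finset.ne_of_mem_erase ((hd i).1 v) h1
    · intro h
      exact hd2 i j (fun he => h (by rw [he])) v

lemma packable_of_le {V : Type} {G : SimpleGraph V} {k : ℕ} (hk : 1 ≤ k) (h : Packable G k) :
    ∀ l, k ≤ l → Packable G l := by
  intro l hl
  induction l, hl using Nat.le_induction with
  | base => exact h
  | succ l hl ih => exact packable_succ (hk.trans hl) ih

/-- Every graph with `n` vertices has packings for lists of size `2 n`. -/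
lemma packable_large {n : ℕ} (G : SimpleGraph (Fin n)) : Packable G (2 * n) := by
  classical
  intro L hL
  have key : ∀ t : ℕ, t ≤ n → ∃ c : Fin (2 * n) → ℕ → ℕ,
      (∀ i, ∀ v : Fin n, (v : ℕ) < t → c i v ∈ L v) ∧
      (∀ i u v, u < v → v < t → c i u ≠ c i v) ∧
      ∀ i j, i ≠ j → ∀ v < t, c i v ≠ c j v := by
    intro t
    induction t with
    | zero =>
      intro _
      exact ⟨fun _ _ => 0, fun _ v h => absurd h (by omega), fun _ _ _ _ h => absurd h (by omega),
        fun _ _ _ _ h => absurd h (by omega)⟩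
    | succ t ih =>
      intro ht
      obtain ⟨c, h1, h2, h3⟩ := ih (by omega)
      set S : Finset ℕ := L ⟨t, by omega⟩ with hS
      have hSc : S.card = 2 * n := hL _
      set F : Fin (2 * n) → Finset ℕ := fun i => (Finset.range t).image (c i) with hF
      have hall : ∀ I : Finset (Fin (2 * n)), I.card ≤ (I.biUnion fun i => S \ F i).card := by
        intro I
        by_cases hI : I.card ≤ n
        · rcases I.eq_empty_or_nonempty with h0 | ⟨i, hi⟩
          · rw [h0]; simp
          · have h4 : (S \ F i).card ≤ (I.biUnion fun i => S \ F i).card :=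
              Finset.card_le_card (Finset.subset_biUnion_of_mem (fun i => S \ F i) hi)
            have h5 : (F i).card ≤ t := by
              calc (F i).card ≤ (Finset.range t).card := Finset.card_image_le
                _ = t := Finset.card_range t
            have h6 := Finset.le_card_sdiff (F i) S
            omega
        · have h4 : S ⊆ I.biUnion fun i => S \ F i := by
            intro x hx
            by_contra hc
            have h5 : ∀ i ∈ I, x ∈ F i := by
              intro i hi
              by_contra h6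
              exact hc (Finset.mem_biUnion.2 ⟨i, hi, Finset.mem_sdiff.2 ⟨hx, h6⟩⟩)
            have h6 : ∀ i ∈ I, ∃ u < t, c i u = x := by
              intro i hi
              obtain ⟨u, hu, hux⟩ := Finset.mem_image.1 (h5 i hi)
              exact ⟨u, Finset.mem_range.1 hu, hux⟩
            choose! g hg using h6
            have h7 : I.card ≤ (Finset.range t).card := by
              refine Finset.card_le_card_of_injOn g (fun i hi => ?_) ?_
              · exact Finset.mem_coe.2 (Finset.mem_range.2 (hg i hi).1)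
              · intro i hi j hj hij
                by_contra hne
                have h8 := h3 i j hne (g i) (hg i hi).1
                rw [(hg i hi).2, hij, (hg j hj).2] at h8
                exact h8 rfl
            rw [Finset.card_range] at h7
            omega
          have h5 := Finset.card_le_card h4
          have h6 : I.card ≤ 2 * n := by
            calc I.card ≤ (Finset.univ : Finset (Fin (2 * n))).card :=
                  Finset.card_le_card (Finset.subset_univ _)
              _ = 2 * n := by rw [Finset.card_univ, Fintype.card_fin]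
          omega
      obtain ⟨f, hf, hf2⟩ := (Finset.all_card_le_biUnion_card_iff_exists_injective
        (fun i => S \ F i)).1 hall
      refine ⟨fun i x => if x = t then f i else c i x, ?_, ?_, ?_⟩
      · intro i v hv
        by_cases hvt : (v : ℕ) = t
        · simp only [hvt, if_true]
          have h4 : v = ⟨t, by omega⟩ := Fin.ext hvt
          rw [h4]
          exact (Finset.mem_sdiff.1 (hf2 i)).1
        · simp only [hvt, if_false]
          exact h1 i v (by omega)
      · intro i u v huv hv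
        have hut : u ≠ t := by omega
        simp only [hut, if_false]
        by_cases hvt : v = t
        · simp only [hvt, if_true]
          intro h4
          refine (Finset.mem_sdiff.1 (hf2 i)).2 ?_
          rw [← h4]
          exact Finset.mem_image.2 ⟨u, Finset.mem_range.2 (by omega), rfl⟩
        · simp only [hvt, if_false]
          exact h2 i u v huv (by omega)
      · intro i j hij v hv
        by_cases hvt : v = t
        · simp only [hvt, if_true]
          exact fun h => hij (hf h)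
        · simp only [hvt, if_false]
          exact h3 i j hij v (by omega)
  obtain ⟨c, h1, h2, h3⟩ := key n le_rfl
  refine ⟨fun i v => c i v, fun i => ⟨fun v => h1 i v v.2, fun u v huv => ?_⟩,
    fun i j hij v => h3 i j hij v v.2⟩
  rcases lt_trichotomy u v with h | h | h
  · exact h2 i u v h v.2
  · exact absurd h huv.ne
  · exact (h2 i v u h u.2).symm

/-! ## The graph -/

/-- The edges. -/
def edges : List (ℕ × ℕ) := [
  (0, 1), (0, 4), (0, 7), (0, 10), (0, 11), (0, 13), (0, 22), (0, 41), (0, 43), (0, 44), (0, 45),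
  (0, 47), (1, 2), (1, 3), (1, 5), (1, 6), (1, 14), (1, 23), (1, 24), (1, 31), (1, 39), (1, 40),
  (2, 21), (2, 22), (2, 25), (2, 28), (2, 29), (2, 38), (2, 47), (3, 4), (3, 13), (3, 18), (3,
  19), (3, 21), (3, 22), (3, 35), (3, 36), (3, 38), (5, 8), (5, 10), (5, 12), (5, 13), (5, 15),
  (5, 17), (5, 18), (5, 20), (6, 7), (6, 8), (6, 11), (6, 12), (9, 10), (9, 11), (9, 12), (14,
  15), (14, 19), (14, 20), (16, 17), (16, 18), (16, 19), (16, 20), (23, 26), (23, 28), (23, 30),
  (23, 32), (23, 34), (23, 35), (23, 37), (23, 38), (24, 25), (24, 26), (24, 29), (24, 30), (27,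
  28), (27, 29), (27, 30), (31, 32), (31, 36), (31, 37), (33, 34), (33, 35), (33, 36), (33, 37),
  (39, 44), (39, 46), (39, 47), (40, 41), (40, 45), (40, 46), (42, 43), (42, 44), (42, 45), (42,
  46)]

/-- The lists. -/
def lists : List (ℕ × ℕ × ℕ) := [
  (0, 1, 2), (0, 1, 3), (0, 1, 4), (1, 2, 4), (1, 2, 5), (1, 2, 3), (0, 2, 3), (0, 2, 6), (2, 3,
  7), (2, 0, 8), (2, 0, 8), (1, 3, 8), (2, 1, 8), (0, 4, 3), (3, 0, 2), (2, 3, 9), (2, 3, 10), (2,
  3, 11), (2, 4, 10), (2, 3, 10), (1, 0, 10), (1, 4, 12), (0, 2, 4), (1, 3, 4), (0, 3, 4), (0, 4,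
  13), (3, 4, 14), (4, 0, 15), (4, 0, 15), (1, 3, 15), (4, 1, 15), (3, 0, 4), (3, 4, 16), (4, 3,
  17), (3, 4, 18), (4, 2, 17), (4, 3, 17), (1, 0, 17), (0, 2, 3), (0, 1, 3), (0, 2, 3), (0, 2,
  19), (0, 2, 20), (0, 2, 21), (1, 2, 3), (1, 3, 20), (0, 3, 2), (2, 4, 3)]

/-- The sides. -/
def sides : List ℕ := [
  0, 1, 0, 0, 1, 0, 0, 1, 1, 0, 1, 1, 1, 1, 0, 1, 0, 1, 1, 1, 1, 1, 1, 0, 0, 1, 1, 0, 1, 1, 1, 0,
  1, 0, 1, 1, 1, 1, 1, 0, 0, 1, 0, 1, 1, 1, 1, 1]

/-- The positions. -/
def pos : List (ℤ × ℤ) := [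
  (0, 400), (-5, 51), (0, -400), (62, 20), (57, 194), (17, 150), (5, 210), (2, 285), (9, 173), (7,
  251), (9, 261), (4, 282), (9, 209), (27, 189), (19, 90), (16, 114), (28, 101), (23, 122), (34,
  96), (34, 73), (22, 112), (57, -174), (400, 0), (17, -97), (5, -162), (2, -255), (9, -119), (7,
  -217), (9, -232), (4, -254), (9, -165), (19, -23), (16, -52), (28, -47), (23, -69), (34, -47),
  (34, -17), (22, -55), (27, -158), (-116, 128), (-27, 224), (-14, 292), (-43, 274), (-25, 328),
  (-68, 255), (-25, 296), (-58, 208), (-400, 0)]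

/-- The graph. -/
def G : SimpleGraph (Fin 48) where
  Adj u v := ((u : ℕ), (v : ℕ)) ∈ edges ∨ ((v : ℕ), (u : ℕ)) ∈ edges
  symm := ⟨fun _ _ h => h.symm⟩
  loopless := ⟨fun u h => by
    have h1 : ∀ e ∈ edges, e.1 ≠ e.2 := by decide
    rcases h with h | h <;> exact h1 _ h rfl⟩

lemma bipartite : G.IsBipartite := by
  refine ⟨SimpleGraph.Coloring.mk (fun v => Fin.ofNat 2 (sides.getD v 0)) ?_⟩
  intro u v h
  have h1 : ∀ e ∈ edges, Fin.ofNat 2 (sides.getD e.1 0) ≠ Fin.ofNat 2 (sides.getD e.2 0) := by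
    decide
  rcases h with h | h
  · exact h1 _ h
  · exact (h1 _ h).symm

/-! ## The drawing -/

/-- The orientation of a triangle. -/
def orZ (p q r : ℤ × ℤ) : ℤ := (q.1 - p.1) * (r.2 - p.2) - (q.2 - p.2) * (r.1 - p.1)

/-- The orientation of a triangle. -/
def orR (p q r : ℝ × ℝ) : ℝ := (q.1 - p.1) * (r.2 - p.2) - (q.2 - p.2) * (r.1 - p.1)

/-- The position of a vertex. -/
def P (x : ℕ) : ℤ × ℤ := pos.getD x (0, 0)

/-- The position of a vertex. -/
def Q (x : ℕ) : ℝ × ℝ := (((P x).1 : ℝ), ((P x).2 : ℝ))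

lemma orR_Q (x y z : ℕ) : orR (Q x) (Q y) (Q z) = (orZ (P x) (P y) (P z) : ℝ) := by
  unfold orR orZ Q
  push_cast
  rfl

/-- The test of two different edges. -/
def test (e e' : ℕ × ℕ) : Bool :=
  if e == e' then true
  else if e.1 == e'.1 then decide (orZ (P e.1) (P e.2) (P e'.2) ≠ 0)
  else if e.1 == e'.2 then decide (orZ (P e.1) (P e.2) (P e'.1) ≠ 0)
  else if e.2 == e'.1 then decide (orZ (P e.2) (P e.1) (P e'.2) ≠ 0)
  else if e.2 == e'.2 then decide (orZ (P e.2) (P e.1) (P e'.1) ≠ 0)
  else decide (0 < orZ (P e.1) (P e.2) (P e'.1) * orZ (P e.1) (P e.2) (P e'.2)) ||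
    decide (0 < orZ (P e'.1) (P e'.2) (P e.1) * orZ (P e'.1) (P e'.2) (P e.2))

lemma test_all : (edges.all fun e => edges.all fun e' => test e e') = true := by
  decide +kernel

lemma orR_self {p q z : ℝ × ℝ} (h : z ∈ segment ℝ p q) : orR p q z = 0 := by
  obtain ⟨a, b, _, _, hab, rfl⟩ := h
  unfold orR
  simp only [Prod.fst_add, Prod.snd_add, Prod.smul_fst, Prod.smul_snd, smul_eq_mul]
  have : a = 1 - b := by linarith
  subst this
  ring

lemma orR_conv {p q c d z : ℝ × ℝ} (h : z ∈ segment ℝ c d) (h2 : 0 < orR p q c * orR p q d) :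
    orR p q z ≠ 0 := by
  obtain ⟨a, b, ha, hb, hab, rfl⟩ := h
  have h3 : orR p q (a • c + b • d) = a * orR p q c + b * orR p q d := by
    unfold orR
    simp only [Prod.fst_add, Prod.snd_add, Prod.smul_fst, Prod.smul_snd, smul_eq_mul]
    have : a = 1 - b := by linarith
    subst this
    ring
  rw [h3]
  rcases pos_and_pos_or_neg_and_neg_of_mul_pos h2 with ⟨h4, h5⟩ | ⟨h4, h5⟩
  · intro h6
    rcases eq_or_lt_of_le ha with h7 | h7
    · rw [← h7] at h6 hab
      have : b = 1 := by linarith
      rw [this] at h6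
      linarith
    · have := mul_pos h7 h4
      have := mul_nonneg hb h5.le
      linarith
  · intro h6
    rcases eq_or_lt_of_le ha with h7 | h7
    · rw [← h7] at h6 hab
      have : b = 1 := by linarith
      rw [this] at h6
      linarith
    · have := mul_pos_of_neg_of_neg (neg_neg_of_pos h7) h4
      have := mul_nonneg_of_nonpos_of_nonpos (neg_nonpos.2 hb) h5.le
      linarith

lemma share {x y w z : ℝ × ℝ} (h1 : z ∈ segment ℝ x y) (h2 : z ∈ segment ℝ x w)
    (h : orR x y w ≠ 0) : z = x := by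
  have h3 := orR_self h1
  obtain ⟨a, b, _, _, hab, rfl⟩ := h2
  have h4 : orR x y (a • x + b • w) = b * orR x y w := by
    unfold orR
    simp only [Prod.fst_add, Prod.snd_add, Prod.smul_fst, Prod.smul_snd, smul_eq_mul]
    have : a = 1 - b := by linarith
    subst this
    ring
  rw [h4] at h3
  have hb : b = 0 := by
    rcases mul_eq_zero.1 h3 with h5 | h5
    · exact h5
    · exact absurd h5 h
  have ha : a = 1 := by linarith
  rw [ha, hb, one_smul, zero_smul, add_zero]

/-- Two different edges meet only in a common end. -/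
lemma meet {e e' : ℕ × ℕ} (he : e ∈ edges) (he' : e' ∈ edges) (hne : e ≠ e') {z : ℝ × ℝ}
    (h1 : z ∈ segment ℝ (Q e.1) (Q e.2)) (h2 : z ∈ segment ℝ (Q e'.1) (Q e'.2)) :
    ∃ w, (w = e.1 ∨ w = e.2) ∧ (w = e'.1 ∨ w = e'.2) ∧ z = Q w := by
  have h3 := test_all
  rw [List.all_eq_true] at h3
  have h4 := h3 e he
  rw [List.all_eq_true] at h4
  have h5 := h4 e' he'
  unfold test at h5
  rw [if_neg (by simpa using hne)] at h5
  by_cases c1 : e.1 = e'.1
  · rw [if_pos (by simpa using c1)] at h5
    refine ⟨e.1, Or.inl rfl, Or.inl c1, share h1 (w := Q e'.2) (by rw [c1]; exact h2) ?_⟩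
    rw [orR_Q]
    exact_mod_cast of_decide_eq_true h5
  rw [if_neg (by simpa using c1)] at h5
  by_cases c2 : e.1 = e'.2
  · rw [if_pos (by simpa using c2)] at h5
    refine ⟨e.1, Or.inl rfl, Or.inr c2, share h1 (w := Q e'.1)
      (by rw [c2, segment_symm]; exact h2) ?_⟩
    rw [orR_Q]
    exact_mod_cast of_decide_eq_true h5
  rw [if_neg (by simpa using c2)] at h5
  by_cases c3 : e.2 = e'.1
  · rw [if_pos (by simpa using c3)] at h5
    refine ⟨e.2, Or.inr rfl, Or.inl c3, share (y := Q e.1) (w := Q e'.2)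
      (by rw [segment_symm]; exact h1) (by rw [c3]; exact h2) ?_⟩
    rw [orR_Q]
    exact_mod_cast of_decide_eq_true h5
  rw [if_neg (by simpa using c3)] at h5
  by_cases c4 : e.2 = e'.2
  · rw [if_pos (by simpa using c4)] at h5
    refine ⟨e.2, Or.inr rfl, Or.inr c4, share (y := Q e.1) (w := Q e'.1)
      (by rw [segment_symm]; exact h1) (by rw [c4, segment_symm]; exact h2) ?_⟩
    rw [orR_Q]
    exact_mod_cast of_decide_eq_true h5
  rw [if_neg (by simpa using c4), Bool.or_eq_true] at h5
  exfalso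
  rcases h5 with h5 | h5
  · have h6 := of_decide_eq_true h5
    refine orR_conv (p := Q e.1) (q := Q e.2) h2 ?_ (orR_self h1)
    rw [orR_Q, orR_Q]
    exact_mod_cast h6
  · have h6 := of_decide_eq_true h5
    refine orR_conv (p := Q e'.1) (q := Q e'.2) h1 ?_ (orR_self h2)
    rw [orR_Q, orR_Q]
    exact_mod_cast h6

lemma lt_of_mem : ∀ e ∈ edges, e.1 < e.2 ∧ e.2 < 48 := by decide

lemma exists_edge {u v : Fin 48} (h : G.Adj u v) : ∃ e ∈ edges,
    ((e.1 = u ∧ e.2 = v) ∨ (e.1 = v ∧ e.2 = u)) ∧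
      segment ℝ (Q u) (Q v) = segment ℝ (Q e.1) (Q e.2) := by
  rcases h with h | h
  · exact ⟨_, h, Or.inl ⟨rfl, rfl⟩, rfl⟩
  · exact ⟨_, h, Or.inr ⟨rfl, rfl⟩, segment_symm _ _ _⟩

lemma planar : Planar G := by
  have h3 : ∀ u v x y : Fin 48, G.Adj u v → G.Adj x y → s(u, v) ≠ s(x, y) →
      ∀ z ∈ segment ℝ (Q u) (Q v), z ∈ segment ℝ (Q x) (Q y) →
        ∃ w : Fin 48, (w = u ∨ w = v) ∧ (w = x ∨ w = y) ∧ z = Q w := by
    intro u v x y huv hxy hne z hz1 hz2
    obtain ⟨e, he, h1, h2⟩ := exists_edge huv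
    obtain ⟨e', he', h1', h2'⟩ := exists_edge hxy
    have hee : e ≠ e' := by
      intro h
      rw [← h] at h1'
      apply hne
      rw [Sym2.eq_iff]
      rcases h1 with ⟨a1, a2⟩ | ⟨a1, a2⟩ <;> rcases h1' with ⟨b1, b2⟩ | ⟨b1, b2⟩
      · exact Or.inl ⟨Fin.ext (a1.symm.trans b1), Fin.ext (a2.symm.trans b2)⟩
      · exact Or.inr ⟨Fin.ext (a1.symm.trans b1), Fin.ext (a2.symm.trans b2)⟩
      · exact Or.inr ⟨Fin.ext (a2.symm.trans b2), Fin.ext (a1.symm.trans b1)⟩
      · exact Or.inl ⟨Fin.ext (a2.symm.trans b2), Fin.ext (a1.symm.trans b1)⟩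
    rw [h2] at hz1
    rw [h2'] at hz2
    obtain ⟨w, hw1, hw2, hw3⟩ := meet he he' hee hz1 hz2
    have hw : w < 48 := by
      have := lt_of_mem e he
      rcases hw1 with h | h <;> omega
    refine ⟨⟨w, hw⟩, ?_, ?_, hw3⟩
    · rcases h1 with ⟨a1, a2⟩ | ⟨a1, a2⟩ <;> rcases hw1 with h | h
      · exact Or.inl (Fin.ext (h.trans a1))
      · exact Or.inr (Fin.ext (h.trans a2))
      · exact Or.inr (Fin.ext (h.trans a1))
      · exact Or.inl (Fin.ext (h.trans a2))
    · rcases h1' with ⟨a1, a2⟩ | ⟨a1, a2⟩ <;> rcases hw2 with h | h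
      · exact Or.inl (Fin.ext (h.trans a1))
      · exact Or.inr (Fin.ext (h.trans a2))
      · exact Or.inr (Fin.ext (h.trans a1))
      · exact Or.inl (Fin.ext (h.trans a2))
  have h0 : Function.Injective fun v : Fin 48 => Q v := by
    intro u v h
    have h1 : ∀ x < 48, ∀ y < 48, P x = P y → x = y := by decide +kernel
    have h2 : (((P u).1 : ℝ), ((P u).2 : ℝ)) = (((P v).1 : ℝ), ((P v).2 : ℝ)) := h
    rw [Prod.mk.injEq] at h2
    have h4 : P u = P v := Prod.ext (by exact_mod_cast h2.1) (by exact_mod_cast h2.2)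
    exact Fin.ext (h1 u u.2 v v.2 h4)
  refine ⟨fun v => Q v, h0, ?_, h3⟩
  intro u v w huv hwu hwv hw
  have h4 : ∀ w < 48, ∃ e ∈ edges, e.1 = w ∨ e.2 = w := by decide +kernel
  obtain ⟨x, hx⟩ : ∃ x : Fin 48, G.Adj w x := by
    obtain ⟨e, he, h5⟩ := h4 w w.2
    have h6 := lt_of_mem e he
    rcases h5 with h5 | h5
    · exact ⟨⟨e.2, h6.2⟩, Or.inl (by rw [← h5]; exact he)⟩
    · exact ⟨⟨e.1, by omega⟩, Or.inr (by rw [← h5]; exact he)⟩
  obtain ⟨y, hy1, _, hy3⟩ := h3 u v w x huv hx (by
    intro h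
    rw [Sym2.eq_iff] at h
    rcases h with ⟨h, _⟩ | ⟨_, h⟩
    · exact hwu h.symm
    · exact hwv h.symm) (Q w) hw (left_mem_segment ℝ _ _)
  have h5 : w = y := h0 hy3
  rcases hy1 with h | h
  · exact hwu (h5.trans h)
  · exact hwv (h5.trans h)

/-! ## The search -/

/-- The six orders of a list. -/
def ord (l : ℕ × ℕ × ℕ) : List (ℕ × ℕ × ℕ) :=
  [(l.1, l.2.1, l.2.2), (l.1, l.2.2, l.2.1), (l.2.1, l.1, l.2.2), (l.2.1, l.2.2, l.1),
    (l.2.2, l.1, l.2.1), (l.2.2, l.2.1, l.1)]

/-- The three colourings are proper on an edge. -/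
def ok (a b : ℕ × ℕ × ℕ) : Bool :=
  !(a.1 == b.1) && (!(a.2.1 == b.2.1) && !(a.2.2 == b.2.2))

/-- A search tree: the vertex, its neighbours which are before it, the search below it, and the
search beside it. -/
inductive ST where
  | done : ST
  | node (v : ℕ) (nb : List ℕ) (child next : ST) : ST

/-- The search. -/
def ev (Lst : ℕ → ℕ × ℕ × ℕ) : ST → (ℕ → ℕ × ℕ × ℕ) → Bool
  | .done, _ => true
  | .node v nb child next, a =>
    ((ord (Lst v)).any fun p => (nb.all fun u => ok p (a u)) &&
      ev Lst child (fun x => if x = v then p else a x)) && ev Lst next a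

/-- The tree is well formed: the neighbours are before the vertex and joined to it. -/
def wf (E : List (ℕ × ℕ)) (n : ℕ) : ST → List ℕ → Bool
  | .done, _ => true
  | .node v nb child next, anc =>
    decide (v < n) && ((nb.all fun u => anc.contains u && (E.contains (u, v) || E.contains (v, u))) &&
      (wf E n child (v :: anc) && wf E n next anc))

lemma ev_of {E : List (ℕ × ℕ)} {n : ℕ} {Lst : ℕ → ℕ × ℕ × ℕ} {t : ℕ → ℕ × ℕ × ℕ}
    (ht : ∀ x < n, t x ∈ ord (Lst x)) (hE : ∀ e ∈ E, ok (t e.1) (t e.2) = true)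
    (hE' : ∀ e ∈ E, ok (t e.2) (t e.1) = true) :
    ∀ (T : ST) (anc : List ℕ) (a : ℕ → ℕ × ℕ × ℕ), wf E n T anc = true →
      (∀ u ∈ anc, a u = t u) → ev Lst T a = true := by
  intro T
  induction T with
  | done => intro _ _ _ _; rfl
  | node v nb child next ih1 ih2 =>
    intro anc a hwf ha
    unfold wf at hwf
    rw [Bool.and_eq_true, Bool.and_eq_true, Bool.and_eq_true] at hwf
    obtain ⟨w1, w2, w3, w4⟩ := hwf
    unfold ev
    rw [Bool.and_eq_true]
    refine ⟨?_, ih2 anc a w4 ha⟩
    rw [List.any_eq_true]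
    refine ⟨t v, ht v (of_decide_eq_true w1), ?_⟩
    rw [Bool.and_eq_true]
    constructor
    · rw [List.all_eq_true] at w2 ⊢
      intro u hu
      have h1 := w2 u hu
      rw [Bool.and_eq_true, Bool.or_eq_true] at h1
      obtain ⟨h1, h2⟩ := h1
      rw [ha u (by simpa using h1)]
      rcases h2 with h2 | h2
      · exact hE' (u, v) (by simpa using h2)
      · exact hE (v, u) (by simpa using h2)
    · refine ih1 (v :: anc) _ w3 ?_
      intro u hu
      by_cases huv : u = v
      · rw [huv]; simp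
      · rw [if_neg huv]
        rcases List.mem_cons.1 hu with h | h
        · exact absurd h huv
        · exact ha u h

/-- The list of a vertex. -/
def lst (x : ℕ) : ℕ × ℕ × ℕ := lists.getD x (0, 0, 0)

/-- The search tree. -/
def tree : ST :=
  (.node 0 [] (.node 1 [0] (.node 3 [1] (.node 4 [3, 0] .done (.node 5 [1] (.node 13 [5, 3, 0]
  .done (.node 6 [1] (.node 7 [6, 0] .done (.node 8 [6, 5] .done (.node 9 [] (.node 10 [9, 5, 0]
  .done (.node 11 [9, 6, 0] .done (.node 12 [9, 6, 5] .done .done))) .done))) (.node 16 [] (.node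
  17 [16, 5] .done (.node 18 [16, 5, 3] .done (.node 14 [1] (.node 19 [14, 16, 3] .done (.node 20
  [14, 16, 5] .done (.node 15 [14, 5] .done .done))) .done))) .done))) (.node 2 [1] (.node 21 [2,
  3] .done (.node 22 [2, 3, 0] .done (.node 42 [] (.node 43 [42, 0] .done (.node 39 [1] (.node 44
  [39, 42, 0] .done (.node 47 [39, 2, 0] .done (.node 40 [1] (.node 41 [40, 0] .done (.node 45
  [40, 42, 0] .done (.node 46 [40, 39, 42] .done .done))) .done))) .done)) (.node 23 [1] (.node 38
  [23, 2, 3] .done (.node 33 [] (.node 34 [33, 23] .done (.node 35 [33, 23, 3] .done (.node 31 [1]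
  (.node 32 [31, 23] .done (.node 36 [31, 33, 3] .done (.node 37 [31, 33, 23] .done .done)))
  .done))) (.node 24 [1] (.node 25 [24, 2] .done (.node 26 [24, 23] .done (.node 27 [] (.node 28
  [27, 23, 2] .done (.node 29 [27, 24, 2] .done (.node 30 [27, 24, 23] .done .done))) .done)))
  .done))) .done)))) .done))) .done) .done) .done)

lemma tree_wf : wf edges 48 tree [] = true := by decide +kernel

lemma tree_ev : ev lst tree (fun _ => (0, 0, 0)) = false := by decide +kernel

/-- The list assignment. -/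
def Ls (v : Fin 48) : Finset ℕ := {(lst v).1, (lst v).2.1, (lst v).2.2}

lemma card_Ls (v : Fin 48) : (Ls v).card = 3 := by
  revert v
  decide +kernel

lemma mem_ord {a b c x y z : ℕ} (hx : x ∈ ({a, b, c} : Finset ℕ)) (hy : y ∈ ({a, b, c} : Finset ℕ))
    (hz : z ∈ ({a, b, c} : Finset ℕ)) (hxy : x ≠ y) (hxz : x ≠ z) (hyz : y ≠ z) :
    (x, y, z) ∈ ord (a, b, c) := by
  simp only [Finset.mem_insert, Finset.mem_singleton] at hx hy hz
  unfold ord
  simp only [List.mem_cons, Prod.mk.injEq, List.mem_nil_iff, or_false]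
  rcases hx with rfl | rfl | rfl <;> rcases hy with rfl | rfl | rfl <;>
    rcases hz with rfl | rfl | rfl <;> simp_all

lemma not_packable : ¬ Packable G 3 := by
  intro h
  obtain ⟨c, hc, hd⟩ := h Ls card_Ls
  set t : ℕ → ℕ × ℕ × ℕ := fun x => if hx : x < 48 then (c 0 ⟨x, hx⟩, c 1 ⟨x, hx⟩, c 2 ⟨x, hx⟩)
    else (0, 0, 0) with htdef
  have ht' : ∀ x (hx : x < 48), t x = (c 0 ⟨x, hx⟩, c 1 ⟨x, hx⟩, c 2 ⟨x, hx⟩) := by
    intro x hx
    rw [htdef]
    exact dif_pos hx
  have ht : ∀ x < 48, t x ∈ ord (lst x) := by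
    intro x hx
    rw [ht' x hx]
    exact mem_ord ((hc 0).1 ⟨x, hx⟩) ((hc 1).1 ⟨x, hx⟩) ((hc 2).1 ⟨x, hx⟩)
      (hd 0 1 (by decide) _) (hd 0 2 (by decide) _) (hd 1 2 (by decide) _)
  have hok : ∀ u v : Fin 48, G.Adj u v → ok (t u) (t v) = true := by
    intro u v huv
    rw [ht' u u.2, ht' v v.2]
    unfold ok
    have h0 := (hc 0).2 u v huv
    have h1 := (hc 1).2 u v huv
    have h2 := (hc 2).2 u v huv
    simp [h0, h1, h2]
  have hE : ∀ e ∈ edges, ok (t e.1) (t e.2) = true := by
    intro e he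
    have h1 := lt_of_mem e he
    exact hok ⟨e.1, by omega⟩ ⟨e.2, h1.2⟩ (Or.inl he)
  have hE' : ∀ e ∈ edges, ok (t e.2) (t e.1) = true := by
    intro e he
    have h1 := lt_of_mem e he
    exact hok ⟨e.2, h1.2⟩ ⟨e.1, by omega⟩ (Or.inr he)
  have h1 := ev_of ht hE hE' tree [] (fun _ => (0, 0, 0)) tree_wf (by simp)
  rw [tree_ev] at h1
  exact absurd h1 (by decide)

/-- There is a bipartite planar graph (with 48 vertices) whose list packing number is at least 4. -/
theorem result : ∃ G : SimpleGraph (Fin 48), Planar G ∧ G.IsBipartite ∧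
    4 ≤ listPackingNumber G := by
  refine ⟨G, planar, bipartite, ?_⟩
  have h1 : {k | 1 ≤ k ∧ Packable G k}.Nonempty := ⟨2 * 48, by omega, packable_large G⟩
  have h2 := Nat.sInf_mem h1
  by_contra hc
  have h3 : listPackingNumber G ≤ 3 := by omega
  exact not_packable (packable_of_le h2.1 h2.2 3 h3)

end Pool.Agent.Results.MP_e21097_co.AtLeastFour
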